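import Mathlib

/-!
# Inserting a base into a cyclic ordering of a matroid of rank three: the local lemma
-/

namespace Pool.Agent.Helper40.CY

open Matroid Set

variable {α : Type*} {M : Matroid α}

/-- The elements `x` of the base `B` that can be exchanged for `c`. -/
def D (M : Matroid α) (B : Set α) (c : α) : Set α := {x | x ∈ B ∧ c ∉ M.closure (B \ {x})}

theorem mem_closure_D {B : Set α} {c : α} (hB : M.IsBase B) (hc : c ∈ M.E) :
    c ∈ M.closure (D M B c) := by
  have h1 : B ∈ {J | J ⊆ B ∧ c ∈ M.closure J} := ⟨Subset.rfl, by rwa [hB.closure_eq]⟩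
  have h2 := hB.indep.closure_sInter_eq_biInter_closure_of_forall_subset
    (Js := {J | J ⊆ B ∧ c ∈ M.closure J}) ⟨B, h1⟩ (fun J hJ => hJ.1)
  have h3 : ⋂₀ {J | J ⊆ B ∧ c ∈ M.closure J} ⊆ D M B c := by
    intro x hx
    refine ⟨hx B h1, fun hc' => ?_⟩
    exact (hx (B \ {x}) ⟨sdiff_subset, hc'⟩).2 rfl
  refine M.closure_subset_closure h3 ?_
  rw [h2]
  exact mem_iInter₂.2 fun J hJ => hJ.2

/-- Two lines that share an independent pair are equal. -/
theorem line_eq {I J : Set α} (hI : M.Indep I) (h2 : I.encard = 2) (hJ : J.encard ≤ 2)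
    (hIJ : I ⊆ M.closure J) : M.closure J = M.closure I := by
  have h1 : M.IsRkFinite I := by
    rw [← eRk_ne_top_iff, hI.eRk_eq_encard, h2]
    decide
  have h3 := h1.closure_eq_closure_of_subset_of_eRk_ge_eRk hIJ (by
    rw [eRk_closure_eq, hI.eRk_eq_encard, h2]
    exact (M.eRk_le_encard J).trans hJ)
  rw [h3, closure_closure]

theorem pair_le (a b : α) : ({a, b} : Set α).encard ≤ 2 := by
  refine (encard_insert_le _ _).trans ?_
  rw [encard_singleton]
  norm_num

/-- From a base `{a, b, c}` of three elements. -/
theorem base_facts {a b c : α} (h : M.IsBase {a, b, c}) (h3 : ({a, b, c} : Set α).encard = 3) :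
    a ≠ b ∧ a ≠ c ∧ b ≠ c ∧ c ∉ M.closure {a, b} ∧ b ∉ M.closure {a, c} ∧ a ∉ M.closure {b, c} := by
  have hab : a ≠ b := by
    rintro rfl
    rw [insert_eq_of_mem (mem_insert _ _)] at h3
    have := pair_le a c
    rw [h3] at this
    exact absurd this (by decide)
  have hac : a ≠ c := by
    rintro rfl
    rw [insert_eq_of_mem (by simp)] at h3
    have := pair_le b a
    rw [h3] at this
    exact absurd this (by decide)
  have hbc : b ≠ c := by
    rintro rfl
    rw [pair_eq_singleton] at h3
    have := pair_le a b
    rw [h3] at this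
    exact absurd this (by decide)
  refine ⟨hab, hac, hbc, ?_, ?_, ?_⟩
  · have h1 := (indep_iff_forall_notMem_closure_sdiff (M := M) (I := {a, b, c})
      h.subset_ground).1 h.indep (e := c) (by simp)
    rwa [show ({a, b, c} : Set α) \ {c} = {a, b} by
      ext x; simp only [mem_sdiff, mem_insert_iff, mem_singleton_iff]; grind] at h1
  · have h1 := (indep_iff_forall_notMem_closure_sdiff (M := M) (I := {a, b, c})
      h.subset_ground).1 h.indep (e := b) (by simp)
    rwa [show ({a, b, c} : Set α) \ {b} = {a, c} by
      ext x; simp only [mem_sdiff, mem_insert_iff, mem_singleton_iff]; grind] at h1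
  · have h1 := (indep_iff_forall_notMem_closure_sdiff (M := M) (I := {a, b, c})
      h.subset_ground).1 h.indep (e := a) (by simp)
    rwa [show ({a, b, c} : Set α) \ {a} = {b, c} by
      ext x; simp only [mem_sdiff, mem_insert_iff, mem_singleton_iff]; grind] at h1

/-- A third element. -/
theorem exists_third {B : Set α} (h3 : B.encard = 3) {x z : α} (hx : x ∈ B) (hz : z ∈ B)
    (hxz : x ≠ z) : ∃ y, y ≠ x ∧ y ≠ z ∧ B = {x, y, z} := by
  have h1 : (B \ {x}).encard = 2 := by
    have := encard_sdiff_singleton_add_one hx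
    rw [h3] at this
    have h4 : (3 : ℕ∞) = 2 + 1 := by norm_num
    rw [h4] at this
    exact WithTop.add_right_cancel (by decide) this
  obtain ⟨u, v, huv, he⟩ := encard_eq_two.1 h1
  have hz' : z ∈ B \ {x} := ⟨hz, hxz.symm⟩
  have hB : B = insert x (B \ {x}) := by rw [insert_sdiff_singleton, insert_eq_of_mem hx]
  rw [he] at hz' hB
  have hux : u ≠ x := by
    have : u ∈ B \ {x} := by rw [he]; simp
    exact this.2
  have hvx : v ≠ x := by
    have : v ∈ B \ {x} := by rw [he]; simp
    exact this.2
  rcases hz' with rfl | hz'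
  · refine ⟨v, hvx, huv.symm, ?_⟩
    rw [hB, pair_comm]
  · rw [mem_singleton_iff] at hz'
    subst hz'
    exact ⟨u, hux, huv, hB⟩

/-- **The local lemma.** In a cyclic ordering of a matroid of rank three there is a place where
the elements of the base `B` can be inserted. -/
theorem local_lemma (c : ℕ → α) (hc : ∀ i, M.IsBase {c i, c (i + 1), c (i + 2)})
    (hc3 : ∀ i, ({c i, c (i + 1), c (i + 2)} : Set α).encard = 3)
    {B : Set α} (hB : M.IsBase B) (hB3 : B.encard = 3) :
    ∃ i, ∃ x y z, B = {x, y, z} ∧ M.IsBase {c i, c (i + 1), x} ∧ M.IsBase {c (i + 1), x, y} ∧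
      M.IsBase {y, z, c (i + 2)} ∧ M.IsBase {z, c (i + 2), c (i + 3)} := by
  by_contra hcon
  push Not at hcon
  have hE : ∀ i, c i ∈ M.E := fun i => (hc i).subset_ground (by simp)
  have hf := fun i => base_facts (hc i) (hc3 i)
  have hBi : ∀ {x z : α}, x ∈ B → z ∈ B → M.Indep {x, z} := fun hx hz =>
    hB.indep.subset (insert_subset hx (singleton_subset_iff.2 hz))
  -- exchange
  have hex : ∀ i x, x ∉ M.closure {c i, c (i + 1)} → x ∈ B → M.IsBase {c i, c (i + 1), x} := by
    intro i x hx hxB
    have h1 := (hc i).exchange_base_of_notMem_closure (e := c (i + 2)) (f := x) (by simp) (by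
      rwa [show ({c i, c (i + 1), c (i + 2)} : Set α) \ {c (i + 2)} = {c i, c (i + 1)} by
        have := hf i
        ext y; simp only [mem_sdiff, mem_insert_iff, mem_singleton_iff]; grind])
      (hB.subset_ground hxB)
    rwa [show insert x (({c i, c (i + 1), c (i + 2)} : Set α) \ {c (i + 2)}) =
      {c i, c (i + 1), x} by
        have := hf i
        ext y; simp only [mem_sdiff, mem_insert_iff, mem_singleton_iff]; grind] at h1
  have hex' : ∀ i x, x ∉ M.closure {c (i + 1), c (i + 2)} → x ∈ B →
      M.IsBase {x, c (i + 1), c (i + 2)} := by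
    intro i x hx hxB
    have h1 := (hc i).exchange_base_of_notMem_closure (e := c i) (f := x) (by simp) (by
      rwa [show ({c i, c (i + 1), c (i + 2)} : Set α) \ {c i} = {c (i + 1), c (i + 2)} by
        have := hf i
        ext y; simp only [mem_sdiff, mem_insert_iff, mem_singleton_iff]; grind])
      (hB.subset_ground hxB)
    rwa [show insert x (({c i, c (i + 1), c (i + 2)} : Set α) \ {c i}) =
      {x, c (i + 1), c (i + 2)} by
        have := hf i
        ext y; simp only [mem_sdiff, mem_insert_iff, mem_singleton_iff]; grind] at h1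
  have hexB : ∀ i x, x ∈ D M B (c i) → M.IsBase (insert (c i) (B \ {x})) := fun i x hx =>
    hB.exchange_base_of_notMem_closure hx.1 hx.2 (hE i)
  -- the failure at the place `i`
  have hfail : ∀ i, ∃ w ∈ B, w ∈ D M B (c (i + 1)) ∧ w ∈ D M B (c (i + 2)) ∧
      (∀ x, x ∈ D M B (c (i + 2)) → x ∉ M.closure {c i, c (i + 1)} → x = w) ∧
      ∀ x, x ∈ D M B (c (i + 1)) → x ∉ M.closure {c (i + 2), c (i + 3)} → x = w := by
    intro i
    obtain ⟨x, hx, hx'⟩ : ∃ x ∈ D M B (c (i + 2)), x ∉ M.closure {c i, c (i + 1)} := by
      by_contra h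
      push Not at h
      have h1 : D M B (c (i + 2)) ⊆ M.closure {c i, c (i + 1)} := h
      exact (hf i).2.2.2.1 (M.closure_subset_closure_of_subset_closure h1
        (mem_closure_D hB (hE _)))
    obtain ⟨z, hz, hz'⟩ : ∃ z ∈ D M B (c (i + 1)), z ∉ M.closure {c (i + 2), c (i + 3)} := by
      by_contra h
      push Not at h
      have h1 : D M B (c (i + 1)) ⊆ M.closure {c (i + 2), c (i + 3)} := h
      exact (hf (i + 1)).2.2.2.2.2 (M.closure_subset_closure_of_subset_closure h1
        (mem_closure_D hB (hE _)))
    have key : ∀ x z, x ∈ D M B (c (i + 2)) → x ∉ M.closure {c i, c (i + 1)} →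
        z ∈ D M B (c (i + 1)) → z ∉ M.closure {c (i + 2), c (i + 3)} → x = z := by
      intro x z hx hx' hz hz'
      by_contra hxz
      obtain ⟨y, hyx, hyz, hBe⟩ := exists_third hB3 hx.1 hz.1 hxz
      refine hcon i x y z hBe (hex i x hx' hx.1) ?_ ?_ (hex' (i + 1) z hz' hz.1)
      · have h1 := hexB (i + 1) z hz
        rwa [hBe, show insert (c (i + 1)) (({x, y, z} : Set α) \ {z}) = {c (i + 1), x, y} by
          ext a; simp only [mem_sdiff, mem_insert_iff, mem_singleton_iff]; grind] at h1
      · have h1 := hexB (i + 2) x hx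
        rwa [hBe, show insert (c (i + 2)) (({x, y, z} : Set α) \ {x}) = {y, z, c (i + 2)} by
          ext a; simp only [mem_sdiff, mem_insert_iff, mem_singleton_iff]; grind] at h1
    have hxz := key x z hx hx' hz hz'
    subst hxz
    exact ⟨x, hx.1, hz, hx, fun a ha ha' => key a x ha ha' hz hz',
      fun a ha ha' => (key x a hx hx' ha ha').symm⟩
  choose w hwB hw1 hw2 hwx hwz using hfail
  -- no element is generic
  have claim1 : ∀ i, ∃ x ∈ B, x ∉ D M B (c (i + 1)) := by
    intro i
    by_contra h
    push Not at h
    have h1 : B \ {w i} ⊆ M.closure {c (i + 2), c (i + 3)} := by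
      rintro x ⟨hxB, hxw⟩
      by_contra hx
      exact hxw (hwz i x (h x hxB) hx)
    have h2 := line_eq (hB.indep.subset sdiff_subset) (by
      have := encard_sdiff_singleton_add_one (hwB i)
      rw [hB3] at this
      have h4 : (3 : ℕ∞) = 2 + 1 := by norm_num
      rw [h4] at this
      exact WithTop.add_right_cancel (by decide) this) (pair_le _ _) h1
    refine (hw2 i).2 ?_
    rw [← h2]
    exact M.mem_closure_of_mem (by simp) (insert_subset (hE _) (singleton_subset_iff.2 (hE _)))
  -- every element is parallel to an element of `B`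
  have claim2 : ∀ i x, x ∈ D M B (c (i + 1)) → x = w i := by
    intro i v hv
    by_contra hvw
    obtain ⟨t, htB, ht⟩ := claim1 i
    have htv : t ≠ v := by
      rintro rfl
      exact ht hv
    have htw : t ≠ w i := by
      intro h
      rw [h] at ht
      exact ht (hw1 i)
    -- `B = {u, t, v}`
    obtain ⟨t', ht1, ht2, hBe⟩ := exists_third hB3 (hwB i) hv.1 (Ne.symm hvw)
    have htt : t' = t := by
      rw [hBe] at htB
      simp only [mem_insert_iff, mem_singleton_iff] at htB
      grind
    subst htt
    set u := w i with hu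
    have huB : u ∈ B := hwB i
    have eu : B \ {u} = {t', v} := by
      rw [hBe]
      ext a; simp only [mem_sdiff, mem_insert_iff, mem_singleton_iff]; grind
    have et : B \ {t'} = {u, v} := by
      rw [hBe]
      ext a; simp only [mem_sdiff, mem_insert_iff, mem_singleton_iff]; grind
    have ev : B \ {v} = {u, t'} := by
      rw [hBe]
      ext a; simp only [mem_sdiff, mem_insert_iff, mem_singleton_iff]; grind
    have hvcl : v ∈ M.closure {c (i + 2), c (i + 3)} := by
      by_contra h
      exact hvw (hwz i v hv h)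
    have ha : c (i + 1) ∈ M.closure {u, v} := by
      by_contra h
      exact ht ⟨htB, by rwa [et]⟩
    have hb : c (i + 2) ∉ M.closure {t', v} := by
      have := (hw2 i).2
      rwa [← hu, eu] at this
    have hline : ∀ {a b : α}, a ≠ b → M.Indep {a, b} → M.Indep {a, b} ∧
      ({a, b} : Set α).encard = 2 := fun hab h => ⟨h, encard_pair hab⟩
    have hcE : ({c (i + 2), c (i + 3)} : Set α) ⊆ M.E :=
      insert_subset (hE _) (singleton_subset_iff.2 (hE _))
    -- an element that is not parallel to `v`
    have hpar : ∀ a, a ∈ M.E → a ∉ M.closure {v} → M.Indep {v, a} ∧ v ≠ a := by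
      intro a haE ha
      have hvi : M.Indep {v} := hB.indep.subset (singleton_subset_iff.2 hv.1)
      have hne : v ≠ a := by
        rintro rfl
        exact ha (M.mem_closure_of_mem rfl hvi.subset_ground)
      refine ⟨?_, hne⟩
      rw [pair_comm, hvi.insert_indep_iff]
      exact Or.inl ⟨haE, ha⟩
    have hvt : M.closure {v} ⊆ M.closure {t', v} := M.closure_subset_closure (by simp)
    have hvu : M.closure {v} ⊆ M.closure {u, v} := M.closure_subset_closure (by simp)
    have hb' := hpar (c (i + 2)) (hE _) (fun h => hb (hvt h))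
    -- step 1
    have step1 : c (i + 2) ∉ M.closure {u, v} := by
      intro h
      have h1 := line_eq hb'.1 (encard_pair hb'.2) (pair_le (c (i + 2)) (c (i + 3)))
        (insert_subset hvcl (singleton_subset_iff.2 (M.mem_closure_of_mem (by simp) hcE)))
      have h2 := line_eq hb'.1 (encard_pair hb'.2) (pair_le u v)
        (insert_subset (M.mem_closure_of_mem (by simp) (hBi huB hv.1).subset_ground)
          (singleton_subset_iff.2 h))
      rw [← h2, ] at h1
      rw [← h1] at ha
      exact (hf (i + 1)).2.2.2.2.2 ha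
    have htD : t' ∈ D M B (c (i + 2)) := ⟨htB, by rwa [et]⟩
    have hvD : v ∉ D M B (c (i + 2)) := by
      obtain ⟨x, hxB, hx⟩ := claim1 (i + 1)
      have hxu : x ≠ u := by
        rintro rfl
        exact hx (hw2 i)
      have hxt : x ≠ t' := by
        rintro rfl
        exact hx htD
      have hxv : x = v := by
        rw [hBe] at hxB
        simp only [mem_insert_iff, mem_singleton_iff] at hxB
        grind
      rwa [hxv] at hx
    have hbut : c (i + 2) ∈ M.closure {u, t'} := by
      by_contra h
      exact hvD ⟨hv.1, by rwa [ev]⟩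
    -- the next element is parallel to `v`
    have hc' : c (i + 3) ∈ M.closure {v} := by
      by_contra hne
      have hc'' := hpar (c (i + 3)) (hE _) hne
      have h0 := line_eq hc''.1 (encard_pair hc''.2) (pair_le (c (i + 2)) (c (i + 3)))
        (insert_subset hvcl (singleton_subset_iff.2 (M.mem_closure_of_mem (by simp) hcE)))
      have hbm : c (i + 2) ∈ M.closure {c (i + 2), c (i + 3)} :=
        M.mem_closure_of_mem (by simp) hcE
      obtain ⟨x, hxB, hx⟩ := claim1 (i + 2)
      have hx' : c (i + 3) ∈ M.closure (B \ {x}) := by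
        by_contra h
        exact hx ⟨hxB, h⟩
      rw [hBe] at hxB
      simp only [mem_insert_iff, mem_singleton_iff] at hxB
      rcases hxB with rfl | rfl | rfl
      · rw [eu] at hx'
        have h1 := line_eq hc''.1 (encard_pair hc''.2) (pair_le t' v)
          (insert_subset (M.mem_closure_of_mem (by simp) (hBi htB hv.1).subset_ground)
            (singleton_subset_iff.2 hx'))
        rw [← h1] at h0
        rw [h0] at hbm
        exact hb hbm
      · rw [et] at hx'
        have h1 := line_eq hc''.1 (encard_pair hc''.2) (pair_le u v)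
          (insert_subset (M.mem_closure_of_mem (by simp) (hBi huB hv.1).subset_ground)
            (singleton_subset_iff.2 hx'))
        rw [← h1] at h0
        rw [h0] at hbm
        exact step1 hbm
      · rw [ev] at hx'
        have hcc : M.Indep {c (i + 2), c (i + 3)} :=
          (hc (i + 2)).indep.subset (by intro a; simp only [mem_insert_iff, mem_singleton_iff]; grind)
        have h1 := line_eq hcc (encard_pair (hf (i + 2)).1) (pair_le u t')
          (insert_subset hbut (singleton_subset_iff.2 hx'))
        rw [← h1, ← ev] at hvcl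
        exact (hB.indep.notMem_closure_sdiff_of_mem hv.1) hvcl
    have h5 : w (i + 1) = v := by
      have h6 := hw2 (i + 1)
      have h7 : w (i + 1) ∈ B := hwB (i + 1)
      rw [hBe] at h7
      simp only [mem_insert_iff, mem_singleton_iff] at h7
      rcases h7 with h7 | h7 | h7
      · exfalso
        rw [h7] at h6
        refine h6.2 ?_
        rw [eu]
        exact hvt hc'
      · exfalso
        rw [h7] at h6
        refine h6.2 ?_
        rw [et]
        exact hvu hc'
      · exact h7
    have h8 := hw1 (i + 1)
    rw [h5] at h8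
    exact hvD h8
  -- the end
  have h1 : ∀ i, c (i + 1) ∈ M.closure {w i} := by
    intro i
    refine M.closure_subset_closure ?_ (mem_closure_D hB (hE (i + 1)))
    intro x hx
    exact claim2 i x hx
  have h2 : w 1 = w 0 := (claim2 1 (w 0) (hw2 0)).symm
  have h3 : c 1 ∈ M.closure {w 0} := h1 0
  have h4 : c 2 ∈ M.closure {w 0} := by
    have := h1 1
    rwa [h2] at this
  have h5 : M.Indep {c 1, c 2} :=
    (hc 0).indep.subset (by intro a; simp only [mem_insert_iff, mem_singleton_iff]; grind)
  have h6 : ({c 1, c 2} : Set α).encard = 2 := encard_pair (hf 1).1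
  have h7 : ({c 1, c 2} : Set α).encard ≤ M.eRk (M.closure {w 0}) :=
    h5.encard_le_eRk_of_subset (insert_subset h3 (singleton_subset_iff.2 h4))
  rw [eRk_closure_eq, h6] at h7
  have h8 := h7.trans (M.eRk_le_encard {w 0})
  rw [encard_singleton] at h8
  exact absurd h8 (by decide)

end Pool.Agent.Helper40.CY
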