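import Pool.Agent.Helper40.CY.Seq

/-!
# Cyclic orderings of matroids of rank at most three
-/

namespace Pool.Agent.Helper40.CY

open Matroid Set

variable {α : Type*} {M : Matroid α}

/-- A single base. -/
theorem ord_base {r : ℕ} (hr : 0 < r) {B : Set α} (hB : M.IsBase B) (hBr : B.ncard = r)
    (hfin : B.Finite) : ∃ c, Ord M r r B c := by
  classical
  have h1 : Nat.card B = r := by rw [Nat.card_coe_set_eq, hBr]
  have : Finite B := hfin
  let e : Fin r ≃ B := (Finite.equivFinOfCardEq h1).symm
  let c : ℕ → α := fun i => e ⟨i % r, Nat.mod_lt _ hr⟩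
  have hc : ∀ i (hi : i < r), c i = e ⟨i, hi⟩ := by
    intro i hi
    simp only [c, Nat.mod_eq_of_lt hi]
  have hwin : ∀ i, c '' Set.Ico i (i + r) = B := by
    intro i
    ext a
    constructor
    · rintro ⟨j, _, rfl⟩
      exact (e _).2
    · intro ha
      obtain ⟨m, hm⟩ := e.surjective ⟨a, ha⟩
      -- an index congruent to `m`
      refine ⟨i + (m + r * i - i) % r, ⟨by omega, ?_⟩, ?_⟩
      · have := Nat.mod_lt (m + r * i - i) hr
        omega
      · have h2 : i ≤ r * i := Nat.le_mul_of_pos_left _ hr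
        have h3 : (i + (m + r * i - i) % r) % r = m := by
          rw [Nat.add_mod_mod, show i + (m + r * i - i) = m + r * i by omega,
            Nat.add_mul_mod_self_left, Nat.mod_eq_of_lt m.2]
        simp only [c, h3, Fin.eta, hm]
  refine ⟨c, ⟨?_, ?_, ?_, ?_⟩⟩
  · intro i
    simp only [c, Nat.add_mod_right]
  · intro i hi j hj hij
    rw [mem_Iio] at hi hj
    rw [hc i hi, hc j hj] at hij
    have := e.injective (Subtype.ext hij)
    exact congrArg Fin.val this
  · have := hwin 0
    rwa [zero_add, show Set.Ico 0 r = Set.Iio r by ext; simp] at this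
  · intro i
    rw [hwin i]
    exact hB

/-- The step in rank one. -/
theorem step1 {n : ℕ} {S B : Set α} {c : ℕ → α} (h : Ord M 1 n S c) (hn : 1 ≤ n)
    (hB : M.IsBase B) (hB1 : B.encard = 1) (hd : Disjoint S B) :
    ∃ c', Ord M 1 (n + 1) (S ∪ B) c' := by
  obtain ⟨x, rfl⟩ := encard_eq_one.1 hB1
  refine ⟨_, h.append (x := fun _ => x) hn hn 0 ?_ ?_ hd hB ?_ ?_⟩
  · intro i hi j hj _
    rw [mem_Iio] at hi hj
    omega
  · ext a
    constructor
    · rintro ⟨j, _, rfl⟩
      rfl
    · rintro rfl
      exact ⟨0, by rw [mem_Iio]; omega, rfl⟩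
  · intro t h1 h2
    omega
  · intro t h1 h2
    omega

theorem step2 {n : ℕ} {S B : Set α} {c : ℕ → α} (h : Ord M 2 n S c) (hn : 2 ≤ n)
    (hB : M.IsBase B) (hB2 : B.encard = 2) (hd : Disjoint S B) :
    ∃ c', Ord M 2 (n + 2) (S ∪ B) c' := by
  have hwin : ∀ i, c '' Set.Ico i (i + 2) = {c i, c (i + 1)} := by
    intro i
    ext a
    simp only [mem_image, mem_Ico, mem_insert_iff, mem_singleton_iff]
    constructor
    · rintro ⟨j, ⟨h1, h2⟩, rfl⟩
      obtain rfl | rfl : j = i ∨ j = i + 1 := by omega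
      · exact Or.inl rfl
      · exact Or.inr rfl
    · rintro (rfl | rfl)
      · exact ⟨i, ⟨by omega, by omega⟩, rfl⟩
      · exact ⟨i + 1, ⟨by omega, by omega⟩, rfl⟩
  have hbase : M.IsBase {c 0, c 1} := by
    have := h.base 0
    rwa [hwin] at this
  have hne01 : c 0 ≠ c 1 := by
    intro h1
    have := h.inj (show 0 ∈ Set.Iio n by rw [mem_Iio]; omega)
      (show 1 ∈ Set.Iio n by rw [mem_Iio]; omega) h1
    omega
  -- two independent elements are not on a point
  have hpt : ∀ (a : α), c 0 ∈ M.closure {a} → c 1 ∈ M.closure {a} → False := by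
    intro a h0 h1
    have h7 : ({c 0, c 1} : Set α).encard ≤ M.eRk (M.closure {a}) :=
      hbase.indep.encard_le_eRk_of_subset (insert_subset h0 (singleton_subset_iff.2 h1))
    rw [eRk_closure_eq, encard_pair hne01] at h7
    have h8 := h7.trans (M.eRk_le_encard {a})
    rw [encard_singleton] at h8
    exact absurd h8 (by decide)
  -- an order of `B`
  obtain ⟨x, y, hxy, hBe, hx, hy⟩ : ∃ x y, x ≠ y ∧ B = {x, y} ∧ M.IsBase {c 0, x} ∧
      M.IsBase {y, c 1} := by
    obtain ⟨a, b, hab, hBe⟩ := encard_eq_two.1 hB2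
    have hloop : ∀ e ∈ ({c 0, c 1} : Set α), e ∈ M.closure {a} → e ∈ M.closure {b} → False := by
      intro e he h1 h2
      have h3 := Indep.closure_inter_eq_inter_closure (M := M) (I := {a}) (J := {b}) (by
        rw [singleton_union, ← hBe]
        exact hB.indep)
      have h4 : e ∈ M.closure ({a} ∩ {b}) := by
        rw [h3]
        exact ⟨h1, h2⟩
      rw [singleton_inter_eq_empty.2 (by simpa using hab)] at h4
      have h5 : M.Indep {e} := hbase.indep.subset (singleton_subset_iff.2 he)
      rw [indep_singleton] at h5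
      exact h5.not_isLoop h4
    have hE : ∀ e ∈ ({c 0, c 1} : Set α), e ∈ M.E := fun e he => hbase.subset_ground he
    have ea : ∀ e ∈ ({c 0, c 1} : Set α), e ∉ M.closure {a} → M.IsBase {e, a} := by
      intro e he h1
      have hBb : B \ {b} = {a} := by
        rw [hBe]
        ext x; simp only [mem_sdiff, mem_insert_iff, mem_singleton_iff]; grind
      have h2 := hB.exchange_base_of_notMem_closure (e := b) (f := e) (by rw [hBe]; simp)
        (by rwa [hBb]) (hE e he)
      rwa [hBb] at h2
    have eb : ∀ e ∈ ({c 0, c 1} : Set α), e ∉ M.closure {b} → M.IsBase {e, b} := by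
      intro e he h1
      have hBb : B \ {a} = {b} := by
        rw [hBe]
        ext x; simp only [mem_sdiff, mem_insert_iff, mem_singleton_iff]; grind
      have h2 := hB.exchange_base_of_notMem_closure (e := a) (f := e) (by rw [hBe]; simp)
        (by rwa [hBb]) (hE e he)
      rwa [hBb] at h2
    have m0 : c 0 ∈ ({c 0, c 1} : Set α) := by simp
    have m1 : c 1 ∈ ({c 0, c 1} : Set α) := by simp
    by_cases h1 : c 0 ∈ M.closure {a}
    · -- then `c 0` is not parallel to `b`, and `c 1` is not parallel to `a`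
      have h2 : c 0 ∉ M.closure {b} := fun h => hloop _ m0 h1 h
      have h3 : c 1 ∉ M.closure {a} := fun h => hpt a h1 h
      exact ⟨b, a, hab.symm, by rw [hBe, pair_comm], eb _ m0 h2, by
        rw [pair_comm]; exact ea _ m1 h3⟩
    · by_cases h2 : c 1 ∈ M.closure {b}
      · have h3 : c 0 ∉ M.closure {b} := fun h => hpt b h h2
        have h4 : c 1 ∉ M.closure {a} := fun h => hloop _ m1 h h2
        exact ⟨b, a, hab.symm, by rw [hBe, pair_comm], eb _ m0 h3, by
          rw [pair_comm]; exact ea _ m1 h4⟩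
      · exact ⟨a, b, hab, hBe, ea _ m0 h1, by rw [pair_comm]; exact eb _ m1 h2⟩
  let f : ℕ → α := fun i => if i = 0 then x else y
  refine ⟨_, h.append (x := f) (by omega) hn 1 ?_ ?_ hd hB ?_ ?_⟩
  · intro i hi j hj hij
    rw [mem_Iio] at hi hj
    obtain rfl | rfl : i = 0 ∨ i = 1 := by omega
    · obtain rfl | rfl : j = 0 ∨ j = 1 := by omega
      · rfl
      · exact absurd hij (by simpa [f] using hxy)
    · obtain rfl | rfl : j = 0 ∨ j = 1 := by omega
      · exact absurd hij (by simpa [f] using hxy.symm)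
      · rfl
  · rw [hBe]
    ext a
    simp only [mem_image, mem_Iio, mem_insert_iff, mem_singleton_iff]
    constructor
    · rintro ⟨j, hj, rfl⟩
      obtain rfl | rfl : j = 0 ∨ j = 1 := by omega
      · exact Or.inl rfl
      · exact Or.inr rfl
    · rintro (rfl | rfl)
      · exact ⟨0, by omega, rfl⟩
      · exact ⟨1, by omega, rfl⟩
  · intro t h1 h2
    obtain rfl : t = 1 := by omega
    refine (congrArg M.IsBase ?_).mp hx
    ext a
    simp only [mem_setOf_eq, mem_insert_iff, mem_singleton_iff]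
    have h3 : c (1 + (n - 1) + 0) = c 0 := by
      rw [← h.per 0]
      congr 1
      omega
    constructor
    · rintro (rfl | rfl)
      · exact Or.inl ⟨0, by omega, h3⟩
      · exact Or.inr ⟨0, by omega, rfl⟩
    · rintro (⟨l, hl, rfl⟩ | ⟨l, hl, rfl⟩)
      · obtain rfl : l = 0 := by omega
        exact Or.inl h3
      · obtain rfl : l = 0 := by omega
        exact Or.inr rfl
  · intro t h1 h2
    obtain rfl : t = 1 := by omega
    refine (congrArg M.IsBase ?_).mp hy
    ext a
    simp only [mem_setOf_eq, mem_insert_iff, mem_singleton_iff]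
    constructor
    · rintro (rfl | rfl)
      · exact Or.inl ⟨0, by omega, rfl⟩
      · exact Or.inr ⟨0, by omega, rfl⟩
    · rintro (⟨l, hl, rfl⟩ | ⟨l, hl, rfl⟩)
      · obtain rfl : l = 0 := by omega
        exact Or.inl rfl
      · obtain rfl : l = 0 := by omega
        exact Or.inr rfl

/-- The step in rank three. -/
theorem step3 {n : ℕ} {S B : Set α} {c : ℕ → α} (h : Ord M 3 n S c) (hn : 3 ≤ n)
    (hB : M.IsBase B) (hB3 : B.encard = 3) (hd : Disjoint S B) :
    ∃ c', Ord M 3 (n + 3) (S ∪ B) c' := by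
  have hwin : ∀ i, c '' Set.Ico i (i + 3) = {c i, c (i + 1), c (i + 2)} := by
    intro i
    ext a
    simp only [mem_image, mem_Ico, mem_insert_iff, mem_singleton_iff]
    constructor
    · rintro ⟨j, ⟨h1, h2⟩, rfl⟩
      obtain rfl | rfl | rfl : j = i ∨ j = i + 1 ∨ j = i + 2 := by omega
      · exact Or.inl rfl
      · exact Or.inr (Or.inl rfl)
      · exact Or.inr (Or.inr rfl)
    · rintro (rfl | rfl | rfl)
      · exact ⟨i, ⟨by omega, by omega⟩, rfl⟩
      · exact ⟨i + 1, ⟨by omega, by omega⟩, rfl⟩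
      · exact ⟨i + 2, ⟨by omega, by omega⟩, rfl⟩
  have hbase : ∀ i, M.IsBase {c i, c (i + 1), c (i + 2)} := by
    intro i
    have := h.base i
    rwa [hwin] at this
  obtain ⟨i, x, y, z, hBe, h1, h2, h3, h4⟩ := local_lemma c hbase (fun i => by
    rw [(hbase i).encard_eq_encard_of_isBase hB, hB3]) hB hB3
  have hxyz := base_facts (hBe ▸ hB) (hBe ▸ hB3)
  let f : ℕ → α := fun i => if i = 0 then x else if i = 1 then y else z
  have f0 : f 0 = x := rfl
  have f1 : f 1 = y := rfl
  have f2 : f 2 = z := rfl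
  refine ⟨_, h.append (x := f) (by omega) hn (i + 2) ?_ ?_ hd hB ?_ ?_⟩
  · intro i hi j hj hij
    rw [mem_Iio] at hi hj
    obtain rfl | rfl | rfl : i = 0 ∨ i = 1 ∨ i = 2 := by omega
    all_goals obtain rfl | rfl | rfl : j = 0 ∨ j = 1 ∨ j = 2 := by omega
    all_goals first | rfl | (exfalso; rw [f0, f1] at hij; grind) |
      (exfalso; rw [f0, f2] at hij; grind) | (exfalso; rw [f1, f2] at hij; grind) |
      (exfalso; rw [f1, f0] at hij; grind) | (exfalso; rw [f2, f0] at hij; grind) |
      (exfalso; rw [f2, f1] at hij; grind)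
  · rw [hBe]
    ext a
    simp only [mem_image, mem_Iio, mem_insert_iff, mem_singleton_iff]
    constructor
    · rintro ⟨j, hj, rfl⟩
      obtain rfl | rfl | rfl : j = 0 ∨ j = 1 ∨ j = 2 := by omega
      · exact Or.inl rfl
      · exact Or.inr (Or.inl rfl)
      · exact Or.inr (Or.inr rfl)
    · rintro (rfl | rfl | rfl)
      · exact ⟨0, by omega, rfl⟩
      · exact ⟨1, by omega, rfl⟩
      · exact ⟨2, by omega, rfl⟩
  · intro t ht1 ht2
    have e1 : c (i + 2 + (n - 1) + 0) = c (i + 1) := by
      rw [← h.per (i + 1)]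
      congr 1
      omega
    have e2 : c (i + 2 + (n - 2) + 0) = c i := by
      rw [← h.per i]
      congr 1
      omega
    have e3 : c (i + 2 + (n - 2) + 1) = c (i + 1) := by
      rw [← h.per (i + 1)]
      congr 1
      omega
    obtain rfl | rfl : t = 1 ∨ t = 2 := by omega
    · refine (congrArg M.IsBase ?_).mp h2
      ext a
      simp only [mem_setOf_eq, mem_insert_iff, mem_singleton_iff]
      constructor
      · rintro (rfl | rfl | rfl)
        · exact Or.inl ⟨0, by omega, e1⟩
        · exact Or.inr ⟨0, by omega, rfl⟩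
        · exact Or.inr ⟨1, by omega, rfl⟩
      · rintro (⟨l, hl, rfl⟩ | ⟨l, hl, rfl⟩)
        · obtain rfl : l = 0 := by omega
          exact Or.inl e1
        · obtain rfl | rfl : l = 0 ∨ l = 1 := by omega
          · exact Or.inr (Or.inl rfl)
          · exact Or.inr (Or.inr rfl)
    · refine (congrArg M.IsBase ?_).mp h1
      ext a
      simp only [mem_setOf_eq, mem_insert_iff, mem_singleton_iff]
      constructor
      · rintro (rfl | rfl | rfl)
        · exact Or.inl ⟨0, by omega, e2⟩
        · exact Or.inl ⟨1, by omega, e3⟩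
        · exact Or.inr ⟨0, by omega, rfl⟩
      · rintro (⟨l, hl, rfl⟩ | ⟨l, hl, rfl⟩)
        · obtain rfl | rfl : l = 0 ∨ l = 1 := by omega
          · exact Or.inl e2
          · exact Or.inr (Or.inl e3)
        · obtain rfl : l = 0 := by omega
          exact Or.inr (Or.inr rfl)
  · intro t ht1 ht2
    obtain rfl | rfl : t = 1 ∨ t = 2 := by omega
    · refine (congrArg M.IsBase ?_).mp h3
      ext a
      simp only [mem_setOf_eq, mem_insert_iff, mem_singleton_iff]
      constructor
      · rintro (rfl | rfl | rfl)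
        · exact Or.inl ⟨0, by omega, rfl⟩
        · exact Or.inl ⟨1, by omega, rfl⟩
        · exact Or.inr ⟨0, by omega, rfl⟩
      · rintro (⟨l, hl, rfl⟩ | ⟨l, hl, rfl⟩)
        · obtain rfl | rfl : l = 0 ∨ l = 1 := by omega
          · exact Or.inl rfl
          · exact Or.inr (Or.inl rfl)
        · obtain rfl : l = 0 := by omega
          exact Or.inr (Or.inr rfl)
    · refine (congrArg M.IsBase ?_).mp h4
      ext a
      simp only [mem_setOf_eq, mem_insert_iff, mem_singleton_iff]
      constructor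
      · rintro (rfl | rfl | rfl)
        · exact Or.inl ⟨0, by omega, rfl⟩
        · exact Or.inr ⟨0, by omega, rfl⟩
        · exact Or.inr ⟨1, by omega, rfl⟩
      · rintro (⟨l, hl, rfl⟩ | ⟨l, hl, rfl⟩)
        · obtain rfl : l = 0 := by omega
          exact Or.inl rfl
        · obtain rfl | rfl : l = 0 ∨ l = 1 := by omega
          · exact Or.inr (Or.inl rfl)
          · exact Or.inr (Or.inr rfl)

/-- All ranks at most three. -/
theorem exists_ord {r : ℕ} (hr : 0 < r) (hr3 : r ≤ 3) (hrank : M.eRank = r) (B : ℕ → Set α)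
    (k : ℕ) (hB : ∀ i < k + 1, M.IsBase (B i))
    (hd : ∀ i < k + 1, ∀ j < k + 1, i ≠ j → Disjoint (B i) (B j)) :
    ∃ c, Ord M r (r * (k + 1)) (⋃ i ∈ Set.Iio (k + 1), B i) c := by
  have henc : ∀ {B : Set α}, M.IsBase B → B.encard = r := fun h => by
    rw [h.encard_eq_eRank, hrank]
  induction k with
  | zero =>
    have h0 := hB 0 (by omega)
    have h1 := henc h0
    have hfin : (B 0).Finite := finite_of_encard_eq_coe h1
    have h2 : (B 0).ncard = r := by
      rw [← hfin.cast_ncard_eq] at h1
      exact_mod_cast h1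
    obtain ⟨c, hc⟩ := ord_base hr h0 h2 hfin
    refine ⟨c, ?_⟩
    rw [show (⋃ i ∈ Set.Iio (0 + 1), B i) = B 0 by
      ext a; simp only [mem_iUnion, mem_Iio]
      constructor
      · rintro ⟨i, hi, ha⟩
        obtain rfl : i = 0 := by omega
        exact ha
      · intro ha
        exact ⟨0, by omega, ha⟩]
    simpa using hc
  | succ k ih =>
    obtain ⟨c, hc⟩ := ih (fun i hi => hB i (by omega))
      (fun i hi j hj hij => hd i (by omega) j (by omega) hij)
    have hBk := hB (k + 1) (by omega)
    have hdis : Disjoint (⋃ i ∈ Set.Iio (k + 1), B i) (B (k + 1)) := by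
      rw [Set.disjoint_left]
      intro a ha ha'
      simp only [mem_iUnion, mem_Iio] at ha
      obtain ⟨i, hi, hai⟩ := ha
      exact Set.disjoint_left.1 (hd i (by omega) (k + 1) (by omega) (by omega)) hai ha'
    have hU : (⋃ i ∈ Set.Iio (k + 1 + 1), B i) = (⋃ i ∈ Set.Iio (k + 1), B i) ∪ B (k + 1) := by
      ext a; simp only [mem_iUnion, mem_Iio, mem_union]
      constructor
      · rintro ⟨i, hi, ha⟩
        by_cases hik : i = k + 1
        · subst hik
          exact Or.inr ha
        · exact Or.inl ⟨i, by omega, ha⟩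
      · rintro (⟨i, hi, ha⟩ | ha)
        · exact ⟨i, by omega, ha⟩
        · exact ⟨k + 1, by omega, ha⟩
    rw [hU]
    have henc' := henc hBk
    obtain rfl | rfl | rfl : r = 1 ∨ r = 2 ∨ r = 3 := by omega
    · obtain ⟨c', hc'⟩ := step1 hc (by omega) hBk (by simpa using henc') hdis
      exact ⟨c', by rwa [show 1 * (k + 1 + 1) = 1 * (k + 1) + 1 by ring]⟩
    · obtain ⟨c', hc'⟩ := step2 hc (by omega) hBk (by simpa using henc') hdis
      exact ⟨c', by rwa [show 2 * (k + 1 + 1) = 2 * (k + 1) + 2 by ring]⟩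
    · obtain ⟨c', hc'⟩ := step3 hc (by omega) hBk (by simpa using henc') hdis
      exact ⟨c', by rwa [show 3 * (k + 1 + 1) = 3 * (k + 1) + 3 by ring]⟩

end Pool.Agent.Helper40.CY
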