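import Pool.Agent.Helper40.CY.Local

/-!
# Cyclic orderings as periodic sequences; insertion of a base
-/

namespace Pool.Agent.Helper40.CY

open Matroid Set

variable {α : Type*} {M : Matroid α}

/-- `c` is a cyclic ordering of `S`, of length `n`, given as a periodic sequence, in which all
windows of length `r` are bases. -/
structure Ord (M : Matroid α) (r n : ℕ) (S : Set α) (c : ℕ → α) : Prop where
  per : ∀ i, c (i + n) = c i
  inj : Set.InjOn c (Set.Iio n)
  img : c '' Set.Iio n = S
  base : ∀ i, M.IsBase (c '' Set.Ico i (i + r))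

theorem Ord.mod {r n : ℕ} {S : Set α} {c : ℕ → α} (h : Ord M r n S c) (i : ℕ) :
    c (i % n) = c i := by
  have h1 : ∀ q j, c (j + n * q) = c j := by
    intro q
    induction q with
    | zero => intro j; simp
    | succ q ih =>
      intro j
      rw [Nat.mul_succ, ← add_assoc, h.per, ih]
  conv_rhs => rw [← Nat.mod_add_div i n]
  rw [h1]

theorem Ord.mem {r n : ℕ} {S : Set α} {c : ℕ → α} (h : Ord M r n S c) (hn : 0 < n) (i : ℕ) :
    c i ∈ S := by
  rw [← h.mod i, ← h.img]
  exact mem_image_of_mem _ (Nat.mod_lt _ hn)

/-- Any `n` consecutive terms are different. -/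
theorem Ord.shift_inj {r n : ℕ} {S : Set α} {c : ℕ → α} (h : Ord M r n S c) (hn : 0 < n)
    (s : ℕ) {i j : ℕ} (hi : i < n) (hj : j < n) (hij : c (s + i) = c (s + j)) : i = j := by
  rw [← h.mod (s + i), ← h.mod (s + j)] at hij
  have h1 := h.inj (Nat.mod_lt _ hn) (Nat.mod_lt _ hn) hij
  have h2 : (s + i) ≡ (s + j) [MOD n] := h1
  have h3 := Nat.ModEq.add_left_cancel' s h2
  rw [Nat.ModEq, Nat.mod_eq_of_lt hi, Nat.mod_eq_of_lt hj] at h3
  exact h3

theorem Ord.shift_img {r n : ℕ} {S : Set α} {c : ℕ → α} (h : Ord M r n S c) (hn : 0 < n)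
    (s : ℕ) {a : α} (ha : a ∈ S) : ∃ i < n, c (s + i) = a := by
  rw [← h.img] at ha
  obtain ⟨j, hj, rfl⟩ := ha
  refine ⟨(j + n * s - s) % n, Nat.mod_lt _ hn, ?_⟩
  rw [← h.mod (s + _), Nat.add_mod_mod]
  have h1 : s ≤ n * s := Nat.le_mul_of_pos_left _ hn
  rw [show s + (j + n * s - s) = j + n * s by omega, Nat.add_mul_mod_self_left, h.mod]

/-- The sequence `c s, c (s + 1), ..., c (s + n - 1), x 0, ..., x (r - 1)`, repeated. -/
def app (n r s : ℕ) (c x : ℕ → α) (j : ℕ) : α :=
  if j % (n + r) < n then c (s + j % (n + r)) else x (j % (n + r) - n)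

theorem app_lt {n r s : ℕ} {c x : ℕ → α} {j : ℕ} (hj : j < n) : app n r s c x j = c (s + j) := by
  have h1 : j % (n + r) = j := Nat.mod_eq_of_lt (by omega)
  rw [app, h1, if_pos hj]

theorem app_add {n r s : ℕ} {c x : ℕ → α} {j : ℕ} (hj : j < r) :
    app n r s c x (n + j) = x j := by
  have h1 : (n + j) % (n + r) = n + j := Nat.mod_eq_of_lt (by omega)
  rw [app, h1, if_neg (by omega), Nat.add_sub_cancel_left]

theorem app_per {n r s : ℕ} {c x : ℕ → α} (j : ℕ) :
    app n r s c x (j + (n + r)) = app n r s c x j := by
  rw [app, app, Nat.add_mod_right]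

theorem app_mod {n r s : ℕ} {c x : ℕ → α} (j : ℕ) :
    app n r s c x (j % (n + r)) = app n r s c x j := by
  rw [app, app, Nat.mod_mod]

theorem image_window {β : Type*} (f : ℕ → β) (i r : ℕ) :
    f '' Set.Ico i (i + r) = {a | ∃ l < r, f (i + l) = a} := by
  ext a
  constructor
  · rintro ⟨j, ⟨h1, h2⟩, rfl⟩
    exact ⟨j - i, by omega, by rw [show i + (j - i) = j by omega]⟩
  · rintro ⟨l, hl, rfl⟩
    exact ⟨i + l, ⟨by omega, by omega⟩, rfl⟩

/-- Inserting a base at the place `s`. -/
theorem Ord.append {r n : ℕ} {S B : Set α} {c x : ℕ → α} (h : Ord M r n S c) (hn : 0 < n)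
    (hrn : r ≤ n) (s : ℕ) (hx : Set.InjOn x (Set.Iio r)) (hxB : x '' Set.Iio r = B)
    (hd : Disjoint S B) (h0 : M.IsBase B)
    (hL : ∀ t, 0 < t → t < r → M.IsBase {a | (∃ l < t, c (s + (n - t) + l) = a) ∨
      ∃ l < r - t, x l = a})
    (hR : ∀ t, 0 < t → t < r → M.IsBase {a | (∃ l < r - t, x (t + l) = a) ∨
      ∃ l < t, c (s + l) = a}) :
    Ord M r (n + r) (S ∪ B) (app n r s c x) where
  per := app_per
  inj := by
    intro i hi j hj hij
    rw [mem_Iio] at hi hj
    have hcS : ∀ i, c i ∈ S := h.mem hn
    have hxB' : ∀ i, i < r → x i ∈ B := fun i hi => by rw [← hxB]; exact mem_image_of_mem _ hi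
    have hne : ∀ i j, j < r → c i ≠ x j := by
      intro i j hj he
      have h1 : x j ∈ S := he ▸ hcS i
      exact (Set.disjoint_left.1 hd) h1 (hxB' j hj)
    by_cases hi' : i < n
    · rw [app_lt hi'] at hij
      by_cases hj' : j < n
      · rw [app_lt hj'] at hij
        exact h.shift_inj hn s hi' hj' hij
      · obtain ⟨l, rfl⟩ := Nat.exists_eq_add_of_le (not_lt.1 hj')
        rw [app_add (by omega)] at hij
        exact absurd hij (hne _ _ (by omega))
    · obtain ⟨l, rfl⟩ := Nat.exists_eq_add_of_le (not_lt.1 hi')
      rw [app_add (by omega)] at hij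
      by_cases hj' : j < n
      · rw [app_lt hj'] at hij
        exact absurd hij.symm (hne _ _ (by omega))
      · obtain ⟨l', rfl⟩ := Nat.exists_eq_add_of_le (not_lt.1 hj')
        rw [app_add (by omega)] at hij
        rw [hx (show l ∈ Set.Iio r by rw [mem_Iio]; omega) (show l' ∈ Set.Iio r by rw [mem_Iio]; omega) hij]
  img := by
    ext a
    constructor
    · rintro ⟨j, hj, rfl⟩
      rw [mem_Iio] at hj
      by_cases hj' : j < n
      · rw [app_lt hj']
        exact Or.inl (h.mem hn _)
      · obtain ⟨l, rfl⟩ := Nat.exists_eq_add_of_le (not_lt.1 hj')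
        rw [app_add (by omega), ← hxB]
        exact Or.inr (mem_image_of_mem _ (by rw [mem_Iio]; omega))
    · rintro (ha | ha)
      · obtain ⟨i, hi, rfl⟩ := h.shift_img hn s ha
        exact ⟨i, by rw [mem_Iio]; omega, app_lt hi⟩
      · rw [← hxB] at ha
        obtain ⟨i, hi, rfl⟩ := ha
        rw [mem_Iio] at hi
        exact ⟨n + i, by rw [mem_Iio]; omega, app_add hi⟩
  base := by
    intro j
    have h1 : app n r s c x '' Set.Ico j (j + r) =
        {a | ∃ l < r, app n r s c x (j % (n + r) + l) = a} := by
      rw [image_window]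
      ext a
      have h2 : ∀ l, app n r s c x (j % (n + r) + l) = app n r s c x (j + l) := by
        intro l
        rw [← app_mod (j % (n + r) + l), Nat.mod_add_mod, app_mod]
      simp only [mem_setOf_eq, h2]
    rw [h1]
    have hq : j % (n + r) < n + r := Nat.mod_lt _ (by omega)
    generalize j % (n + r) = q at hq
    by_cases hq1 : q + r ≤ n
    · have h2 := h.base (s + q)
      rw [image_window] at h2
      refine (congrArg M.IsBase ?_).mp h2
      ext a
      constructor
      · rintro ⟨l, hl, rfl⟩
        exact ⟨l, hl, by rw [app_lt (by omega), add_assoc]⟩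
      · rintro ⟨l, hl, rfl⟩
        exact ⟨l, hl, by rw [app_lt (by omega), add_assoc]⟩
    · by_cases hq2 : q < n
      · have h2 := hL (n - q) (by omega) (by omega)
        refine (congrArg M.IsBase ?_).mp h2
        ext a
        constructor
        · rintro (⟨l, hl, rfl⟩ | ⟨l, hl, rfl⟩)
          · refine ⟨l, by omega, ?_⟩
            rw [app_lt (by omega)]
            congr 1
            omega
          · refine ⟨n - q + l, by omega, ?_⟩
            rw [show q + (n - q + l) = n + l by omega, app_add (by omega)]
        · rintro ⟨l, hl, rfl⟩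
          by_cases hl' : q + l < n
          · left
            refine ⟨l, by omega, ?_⟩
            rw [app_lt hl']
            congr 1
            omega
          · right
            refine ⟨q + l - n, by omega, ?_⟩
            rw [show q + l = n + (q + l - n) by omega, app_add (by omega)]
            congr 1
            omega
      · by_cases hq3 : q = n
        · subst hq3
          refine (congrArg M.IsBase ?_).mp h0
          rw [← hxB]
          ext a
          constructor
          · rintro ⟨l, hl, rfl⟩
            exact ⟨l, hl, app_add hl⟩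
          · rintro ⟨l, hl, rfl⟩
            exact ⟨l, hl, (app_add hl).symm⟩
        · have h2 := hR (q - n) (by omega) (by omega)
          refine (congrArg M.IsBase ?_).mp h2
          ext a
          constructor
          · rintro (⟨l, hl, rfl⟩ | ⟨l, hl, rfl⟩)
            · refine ⟨l, by omega, ?_⟩
              rw [show q + l = n + (q - n + l) by omega, app_add (by omega)]
            · refine ⟨n + r - q + l, by omega, ?_⟩
              rw [show q + (n + r - q + l) = l + (n + r) by omega, app_per, app_lt (by omega)]
          · rintro ⟨l, hl, rfl⟩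
            by_cases hl' : q + l < n + r
            · left
              refine ⟨l, by omega, ?_⟩
              rw [show q + l = n + (q - n + l) by omega, app_add (by omega)]
            · right
              refine ⟨q + l - (n + r), by omega, ?_⟩
              rw [show q + l = (q + l - (n + r)) + (n + r) by omega, app_per, app_lt (by omega)]
              congr 1
              omega

end Pool.Agent.Helper40.CY
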